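import Mathlib
import Pool.Agent.Run7.h80.Dyn.B
import Pool.Agent.Run7.h80.Sym.Full

/-!
# The dynamical Lehmer conjecture for power maps and Chebyshev maps at points with a decomposable
minimal polynomial

Let `P` be a point of a projective space over a number field `K` and let `ℚ(P)` be the field generated
by the ratios of its coordinates.

* Power maps `(x_0 : … : x_n) ↦ (x_0 ^ d : … : x_n ^ d)`: if some ratio `x_i / x_j` is an algebraic
  integer with minimal polynomial `T ^ j g(h)`, where `g` is irreducible of degree at least `N ≥ 3` and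
  `h` is a Laurent polynomial with integer coefficients not of the form `± T ^ m + δ T ^ (-m) + c`,
  `δ = 0, 1, -1`, then `ĥ(P) ≥ max (3 / 1600, N / 400000) / [ℚ(P) : ℚ]`.
* Chebyshev maps `(x : 1) ↦ (C_d(x) : 1)`, `C_d(t + 1 / t) = t ^ d + t ^ (-d)`: if `x` is an algebraic
  integer with minimal polynomial `g(k)`, where `g` has degree at least `N ≥ 3` and `k` is a polynomial
  with integer coefficients not of the form `± C_m + c`, then
  `ĥ(P) ≥ max (0.0042, N / 400000) / [ℚ(P) : ℚ]`.

So the inequality of the dynamical Lehmer conjecture holds with absolute constants for these points,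
whatever their degree. (With `k = C_1 = X` every minimal polynomial is of the form `g(k)`; this and the
other `± C_m + c`, which are compatible with the dynamics, must be excluded.)

Method. `[ℚ(P) : ℚ] ĥ(P)` is the logarithm of the Mahler measure of the reciprocal polynomial
`X ^ n f(X + 1 / X)`, where `f` is the minimal polynomial of `x`; if `f = g(k)` then it is the product of
the polynomials `X ^ m (k(X + 1 / X) - ξ)` over the zeros `ξ` of `g`. Few zeros of `g` can give a
small factor, unless they lie in a real interval of length less than `2 √2`; then the resultant of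
`g` and a suitable polynomial gives the bound (MP_7ab245_nt, DecomposablePolynomials).
-/

set_option autoImplicit false

open Polynomial LaurentPolynomial NumberField Module Filter Topology Height

namespace Pool.Agent.Results.MP_2194ec_nt.DecomposablePoints

/-- `h = ε T ^ m + δ T ^ (-m) + c` with `ε = ± 1` and `δ = 0, 1, -1`. -/
def Excluded (h : ℤ[T;T⁻¹]) : Prop :=
  ∃ ε δ c m : ℤ, |ε| = 1 ∧ |δ| ≤ 1 ∧
    h = LaurentPolynomial.C ε * LaurentPolynomial.T m +
      LaurentPolynomial.C δ * LaurentPolynomial.T (-m) + LaurentPolynomial.C c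

/-- `f = T ^ j g(h)` with an irreducible `g` of degree at least `N` and a Laurent polynomial `h` that is
not excluded. -/
def Decomposable (N : ℕ) (f : ℤ[X]) : Prop :=
  ∃ (h : ℤ[T;T⁻¹]) (g : ℤ[X]) (j : ℤ), ¬ Excluded h ∧ Irreducible g ∧ N ≤ g.natDegree ∧
    toLaurent f = LaurentPolynomial.T j * aeval h g

/-- `f = g(k)` with a `g` of degree at least `N` and a polynomial `k` that is not `± C_m + c` for
the Chebyshev polynomials `C_m`, `C_m(t + 1 / t) = t ^ m + t ^ (-m)`, and integers `c`. -/
def Composition (N : ℕ) (f : ℤ[X]) : Prop :=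
  ∃ g k : ℤ[X], f = g.comp k ∧ N ≤ g.natDegree ∧
    ∀ (m : ℕ) (c : ℤ), k ≠ Chebyshev.C ℤ m + Polynomial.C c ∧ k ≠ -Chebyshev.C ℤ m + Polynomial.C c

section

variable {K : Type} [Field K] [NumberField K]

/-- the degree of the field `ℚ(P)` generated by the ratios of the coordinates of the point `P` with
coordinate vector `x` -/
noncomputable def degree {n : ℕ} (x : Fin (n + 1) → K) : ℕ :=
  finrank ℚ (IntermediateField.adjoin ℚ {y | ∃ i j, y = x i / x j})

/-- `h` is the canonical height of the point with coordinate vector `x`: the limit of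
`h(g^r(x)) / d ^ r`, where `h` is the absolute logarithmic Weil height, that is
Mathlib's (relative) `Height.logHeight` divided by `[K : ℚ]` -/
def IsCanonicalHeight {n : ℕ} (g : (Fin (n + 1) → K) → (Fin (n + 1) → K)) (d : ℕ)
    (x : Fin (n + 1) → K) (h : ℝ) : Prop :=
  Tendsto (fun r : ℕ => logHeight (g^[r] x) / ((finrank ℚ K : ℝ) * (d : ℝ) ^ r)) atTop (𝓝 h)

variable (K) in
/-- the power map `(x_0 : … : x_n) ↦ (x_0 ^ d : … : x_n ^ d)` on coordinate vectors -/
def powerMap (n d : ℕ) (x : Fin (n + 1) → K) : Fin (n + 1) → K := fun i => x i ^ d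

variable (K) in
/-- the Chebyshev map `(x : 1) ↦ (C_d(x) : 1)` on coordinate vectors, where `C_d(x)` is the polynomial
with `C_d(t + 1 / t) = t ^ d + 1 / t ^ d` -/
noncomputable def chebyshevMap (d : ℕ) (x : Fin (1 + 1) → K) : Fin (1 + 1) → K :=
  ![(Chebyshev.C K d).eval (x 0), 1]

lemma log_002 : (3 / 1600 : ℝ) ≤ Real.log 1.002 := by
  rw [Real.le_log_iff_exp_le (by norm_num)]
  have h := Real.exp_bound' (x := 3 / 1600) (by norm_num) (by norm_num) (n := 3) (by norm_num)
  refine h.trans ?_
  norm_num [Finset.sum_range_succ, Nat.factorial]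

lemma natDegree_le {n : ℕ} (x : Fin (n + 1) → K) {y : K} (hy : IsIntegral ℤ y)
    (h : ∃ i j, y = x i / x j) : (minpoly ℤ y).natDegree ≤ degree x := by
  rw [← Pool.Agent.Run7.h80.Dyn.finrank_adjoin_eq hy]
  apply IntermediateField.finrank_le_of_le_right
  rw [IntermediateField.adjoin_simple_le_iff]
  exact IntermediateField.subset_adjoin _ _ h

end

/-- **The dynamical Lehmer conjecture for power maps and Chebyshev maps at points with a decomposable
minimal polynomial.** -/
theorem result (N d : ℕ) (hN : 3 ≤ N) (hd : 2 ≤ d) (K : Type) [Field K] [NumberField K] :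
    (∀ (n : ℕ) (x : Fin (n + 1) → K) (i j : Fin (n + 1)), IsIntegral ℤ (x i / x j) →
      Decomposable N (minpoly ℤ (x i / x j)) →
      ∃ h : ℝ, IsCanonicalHeight (powerMap K n d) d x h ∧
        max (3 / 1600) ((N : ℝ) / 400000) / degree x ≤ h) ∧
    ∀ x : K, IsIntegral ℤ x → Composition N (minpoly ℤ x) →
      ∃ h : ℝ, IsCanonicalHeight (chebyshevMap K d) d ![x, 1] h ∧
        max 0.0042 ((N : ℝ) / 400000) / degree ![x, 1] ≤ h := by
  have hK : (0 : ℝ) < finrank ℚ K := by exact_mod_cast (finrank_pos : 0 < finrank ℚ K)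
  constructor
  · rintro n x i j hint ⟨h, g, l, hex, hg, hgN, hF⟩
    set α := x i / x j with hα
    obtain ⟨E, hE, hb⟩ := Pool.Agent.Run7.h80.Sym.full h (by
      intro ε δ c m hε hδ he
      exact hex ⟨ε, δ, c, m, hε, hδ, he⟩)
    obtain ⟨b1, b2⟩ := hb g (minpoly ℤ α) l hg.ne_zero hF
    rw [Pool.Agent.Run7.h80.Sym.outE_irreducible hg (hN.trans hgN) hE.2] at b1 b2
    have c1 : Real.exp (g.natDegree / 400000) ≤ Pool.Agent.H388SL.MM (minpoly ℤ α) := b1
    have c2 : 1.002 ≤ Pool.Agent.H388SL.MM (minpoly ℤ α) := b2 (by omega)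
    have d1 : (g.natDegree : ℝ) / 400000 ≤ Real.log (Pool.Agent.H388SL.MM (minpoly ℤ α)) := by
      rw [Real.le_log_iff_exp_le (by linarith)]
      exact c1
    have d2 : (3 / 1600 : ℝ) ≤ Real.log (Pool.Agent.H388SL.MM (minpoly ℤ α)) :=
      log_002.trans (Real.log_le_log (by norm_num) c2)
    have d3 : (N : ℝ) ≤ g.natDegree := by exact_mod_cast hgN
    have d4 : max (3 / 1600 : ℝ) ((N : ℝ) / 400000) ≤
        Real.log (Pool.Agent.H388SL.MM (minpoly ℤ α)) := by
      apply max_le d2
      linarith
    have hit : ∀ r : ℕ, (powerMap K n d)^[r] x = x ^ (d ^ r) := by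
      intro r
      induction r with
      | zero => simp
      | succ r ih =>
        rw [Function.iterate_succ_apply', ih]
        funext i
        show (x i ^ (d ^ r)) ^ d = x i ^ (d ^ (r + 1))
        rw [← pow_mul, pow_succ]
    refine ⟨logHeight x / finrank ℚ K, ?_, ?_⟩
    · unfold IsCanonicalHeight
      simp_rw [hit]
      exact Pool.Agent.Run7.h22.tendsto_pow_height hd x
    · have e1 := Pool.Agent.Run7.h22.ratio_le x i j
      rw [← hα, Pool.Agent.Run7.h22.logHeight₁_eq_lam hint] at e1
      have e2 := Pool.Agent.Run7.h22.lam_eq_MM hint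
      have e3 : 0 < (minpoly ℤ α).natDegree := minpoly.natDegree_pos hint
      have e4 : (0 : ℝ) < (minpoly ℤ α).natDegree := by exact_mod_cast e3
      have e5 : ((minpoly ℤ α).natDegree : ℝ) ≤ degree x := by
        exact_mod_cast natDegree_le x hint ⟨i, j, hα⟩
      have e6 : (0 : ℝ) ≤ max (3 / 1600 : ℝ) ((N : ℝ) / 400000) := by positivity
      calc max (3 / 1600 : ℝ) ((N : ℝ) / 400000) / degree x
          ≤ max (3 / 1600 : ℝ) ((N : ℝ) / 400000) / (minpoly ℤ α).natDegree :=
            div_le_div_of_nonneg_left e6 e4 e5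
        _ ≤ Real.log (Pool.Agent.H388SL.MM (minpoly ℤ α)) / (minpoly ℤ α).natDegree := by
            gcongr
        _ = Pool.Agent.H388SL.lam α / finrank ℚ K := by
            rw [div_eq_div_iff e4.ne' hK.ne', e2]
            ring
        _ ≤ logHeight x / finrank ℚ K := by gcongr
  · rintro x hint ⟨g, k, hf, hgN, hex⟩
    have hirr := minpoly.irreducible hint
    have hpos : 0 < (minpoly ℤ x).natDegree := minpoly.natDegree_pos hint
    have hmon := minpoly.monic hint
    have hdeg : (minpoly ℤ x).natDegree = g.natDegree * k.natDegree := by rw [hf, natDegree_comp]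
    have hk : 0 < k.natDegree := by
      rcases Nat.eq_zero_or_pos k.natDegree with h0 | h0
      · rw [hdeg, h0, mul_zero] at hpos
        omega
      · exact h0
    have hirrg : Irreducible g := by
      refine ⟨fun hu => ?_, fun a b hab => ?_⟩
      · have := natDegree_eq_zero_of_isUnit hu
        omega
      · have e1 : minpoly ℤ x = a.comp k * b.comp k := by rw [hf, hab, mul_comp]
        have e2 : ∀ a : ℤ[X], IsUnit (a.comp k) → IsUnit a := by
          intro a ha
          have e3 := natDegree_eq_zero_of_isUnit ha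
          rw [natDegree_comp] at e3
          have e4 : a.natDegree = 0 := by
            rcases Nat.mul_eq_zero.1 e3 with e5 | e5
            · exact e5
            · omega
          rw [eq_C_of_natDegree_eq_zero e4] at ha ⊢
          rwa [C_comp] at ha
        rcases hirr.isUnit_or_isUnit e1 with e3 | e3
        · exact Or.inl (e2 _ e3)
        · exact Or.inr (e2 _ e3)
    have hlog := Pool.Agent.Run7.h80.Dyn.AA_bound hirrg (hN.trans hgN) hk
      (fun c => hex k.natDegree c)
    rw [← hf] at hlog
    set t : ℕ → K := fun r => (fun y => (Chebyshev.C K d).eval y)^[r] x with ht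
    have hit : ∀ r : ℕ, (chebyshevMap K d)^[r] ![x, 1] = ![t r, 1] := by
      intro r
      induction r with
      | zero => rfl
      | succ r ih =>
        rw [Function.iterate_succ_apply', ih]
        unfold chebyshevMap
        rw [Matrix.cons_val_zero, ht]
        simp only [Function.iterate_succ_apply']
    obtain ⟨h, h1, h2⟩ := Pool.Agent.Run7.h80.Dyn.cheb_height hint hd (T := t) (by
      intro L _ _ α h0 hα r
      induction r with
      | zero =>
        rw [pow_zero, pow_one, pow_one, hα]
        rfl
      | succ r ih =>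
        have e1 : t (r + 1) = (Chebyshev.C K d).eval (t r) := by
          rw [ht]
          simp only [Function.iterate_succ_apply']
        have e2 : algebraMap K L ((Chebyshev.C K d).eval (t r)) =
            (Chebyshev.C L d).eval (algebraMap K L (t r)) := by
          rw [← Chebyshev.map_C (algebraMap K L), eval_map, eval₂_at_apply]
        rw [e1, e2, ih, ← dickson_one_one_eq_chebyshev_C, dickson_one_one_eval_add_inv, ← pow_mul,
          ← pow_mul, pow_succ]
        rw [← mul_pow, mul_inv_cancel₀ h0, one_pow])
    refine ⟨h, ?_, ?_⟩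
    · unfold IsCanonicalHeight
      refine h1.congr fun r => ?_
      rw [hit, logHeight₁_eq_logHeight]
    · have e4 : (0 : ℝ) < (minpoly ℤ x).natDegree := by exact_mod_cast hpos
      have e5 : ((minpoly ℤ x).natDegree : ℝ) ≤ degree ![x, 1] := by
        exact_mod_cast natDegree_le ![x, 1] hint ⟨0, 1, by simp⟩
      have d3 : (N : ℝ) ≤ g.natDegree := by exact_mod_cast hgN
      have e6 : (0 : ℝ) ≤ max (0.0042 : ℝ) ((N : ℝ) / 400000) := by positivity
      calc max (0.0042 : ℝ) ((N : ℝ) / 400000) / degree ![x, 1]
          ≤ max (0.0042 : ℝ) ((N : ℝ) / 400000) / (minpoly ℤ x).natDegree :=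
            div_le_div_of_nonneg_left e6 e4 e5
        _ ≤ max (0.0042 : ℝ) ((g.natDegree : ℝ) / 400000) / (minpoly ℤ x).natDegree := by
            gcongr
        _ ≤ (((minpoly ℤ x).natDegree : ℝ) * h) / (minpoly ℤ x).natDegree := by
            rw [h2]
            gcongr
        _ = h := by field_simp

end Pool.Agent.Results.MP_2194ec_nt.DecomposablePoints
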