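import Mathlib
import Pool.Agent.Run7.h22.Rel11

/-!
# The dynamical Lehmer conjecture for power maps and Chebyshev maps at points of Galois fields with few
complex conjugations

Let `K` be a Galois extension of `ℚ` of finite degree and let `k` be the number of its complex
conjugations, that is of the automorphisms `σ` of `K` such that `φ ∘ σ` is the complex conjugate of `φ`
for some embedding `φ` of `K` in `ℂ`. Let `P` be a wandering point over `K` of the projective space for a
power map, or a wandering point `(x : 1)`, `x = α + 1 / α` with `α` in `K`, of the projective line for a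
Chebyshev map. Then, with an absolute constant `c > 0`,

  `ĥ(P) ≥ min (log 2 / [ℚ(P) : ℚ], (c / k) exp (-9 √(log (2 k))))`.

So the inequality of the dynamical Lehmer conjecture holds, with a power of the degree to spare, for
all points with `k ≤ [ℚ(P) : ℚ] ^ (1 - ε)`. If some conjugate of `P` is not in the complex torus
`|z_0| = … = |z_N|` (respectively if `x` has a conjugate outside of the interval `[-2, 2]`, the Julia set
of the Chebyshev maps, so that `|φ(α)| ≠ 1` for some `φ`) then `ĥ(P) ≥ (c / k) exp (-9 √(log (2 k)))`, a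
bound which does not depend on the degree of `P`.

Method. Let `c` be a complex conjugation of `K` and `Φ` the set of the embeddings for which it is the
complex conjugation, a proportion of at least `1 / k` of all embeddings. The numbers `β c(β)` are
positive at the embeddings in `Φ`. If they generate a group of large rank, then the many products of
small height are positive at all embeddings in `Φ`, which contradicts an energy inequality. The
case of small rank uses elements of minimal height and Dobrowolski's theorem.
-/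

set_option autoImplicit false

open Polynomial NumberField Module Filter Topology Height

namespace Pool.Agent.Results.MP_2194ec_nt.FewComplexConjugations

section

variable {K : Type} [Field K] [NumberField K]

variable (K) in
/-- the complex conjugations of `K`: the automorphisms `σ` of `K` such that `φ ∘ σ` is the complex
conjugate of `φ` for some embedding `φ` of `K` in `ℂ` -/
def complexConjugations : Set (K ≃ₐ[ℚ] K) :=
  {σ | ∃ φ : K →ₐ[ℚ] ℂ, ∀ x, φ (σ x) = starRingEnd ℂ (φ x)}

variable (K) in
/-- the number of the complex conjugations of `K` -/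
noncomputable def k : ℕ := (complexConjugations K).ncard

variable (K) in
/-- the number `(c / k) exp (-9 √(log (2 k)))`, where `k = k K` -/
noncomputable def bound (c : ℝ) : ℝ :=
  c / k K * Real.exp (-9 * Real.sqrt (Real.log (2 * k K)))

/-- the degree of the field `ℚ(P)` generated by the ratios of the coordinates of the point `P` with
coordinate vector `x` -/
noncomputable def degree {N : ℕ} (x : Fin (N + 1) → K) : ℕ :=
  finrank ℚ (IntermediateField.adjoin ℚ {y | ∃ i j, y = x i / x j})

/-- for a map `g` on coordinate vectors: the iterates of the point with coordinate vector `x` are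
pairwise distinct points of the projective space -/
def Wandering {N : ℕ} (g : (Fin (N + 1) → K) → (Fin (N + 1) → K)) (x : Fin (N + 1) → K) : Prop :=
  ¬ ∃ m n : ℕ, m ≠ n ∧ ∃ c : K, c ≠ 0 ∧ g^[n] x = c • g^[m] x

/-- `h` is the canonical height of the point with coordinate vector `x`: the limit of
`h(g^n(x)) / d ^ n`, where `h` is the absolute logarithmic Weil height, that is
Mathlib's (relative) `Height.logHeight` divided by `[K : ℚ]` -/
def IsCanonicalHeight {N : ℕ} (g : (Fin (N + 1) → K) → (Fin (N + 1) → K)) (d : ℕ)
    (x : Fin (N + 1) → K) (h : ℝ) : Prop :=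
  Tendsto (fun n : ℕ => logHeight (g^[n] x) / ((finrank ℚ K : ℝ) * (d : ℝ) ^ n)) atTop (𝓝 h)

variable (K) in
/-- the power map `(x_0 : … : x_N) ↦ (x_0 ^ d : … : x_N ^ d)` on coordinate vectors -/
def powerMap (N d : ℕ) (x : Fin (N + 1) → K) : Fin (N + 1) → K := fun i => x i ^ d

variable (K) in
/-- the Chebyshev map `(x : 1) ↦ (C_d(x) : 1)` on coordinate vectors, where `C_d(x)` is the polynomial
with `C_d(t + 1 / t) = t ^ d + 1 / t ^ d` -/
noncomputable def chebyshevMap (d : ℕ) (x : Fin (1 + 1) → K) : Fin (1 + 1) → K :=
  ![(Chebyshev.C K d).eval (x 0), 1]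

/-- the coordinate vector of the point `(α + 1 / α : 1)` -/
noncomputable def chebyshevPoint (α : K) : Fin (1 + 1) → K := ![α + α⁻¹, 1]

/-- The point with coordinate vector `x` has a canonical height `h` for the map `g` of degree `d`,
with `h ≥ min (log 2 / degree x, bound K c)`, and with `h ≥ bound K c` if `outside` holds. -/
def HasLargeHeight (c : ℝ) (d : ℕ) {N : ℕ} (g : (Fin (N + 1) → K) → (Fin (N + 1) → K))
    (x : Fin (N + 1) → K) (outside : Prop) : Prop :=
  ∃ h : ℝ, IsCanonicalHeight g d x h ∧ min (Real.log 2 / degree x) (bound K c) ≤ h ∧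
    (outside → bound K c ≤ h)

end

/-- **The dynamical Lehmer conjecture for power maps and Chebyshev maps at points of fields with few
complex conjugations.** There is an absolute constant `c > 0` such that for every `d ≥ 2` and every
Galois number field `K`:
* every point of a projective space over `K` which is wandering for the power map of degree `d` has a
  large canonical height in the sense of `HasLargeHeight`, where `outside` means that two nonzero
  coordinates have different absolute values at some embedding;
* for every nonzero `α` in `K` the point `(α + 1 / α : 1)`, if it is wandering for the Chebyshev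
  map of degree `d`, has a large canonical height in the same sense, where `outside` means
  that `α` does not have absolute value one at some embedding. -/
theorem result : ∃ c : ℝ, 0 < c ∧ ∀ d : ℕ, 2 ≤ d → ∀ (K : Type) [Field K] [NumberField K]
    [IsGalois ℚ K],
    (∀ (N : ℕ) (x : Fin (N + 1) → K), x ≠ 0 → Wandering (powerMap K N d) x →
      HasLargeHeight c d (powerMap K N d) x
        (∃ (φ : K →+* ℂ) (i j : Fin (N + 1)), x i ≠ 0 ∧ x j ≠ 0 ∧ ‖φ (x i)‖ ≠ ‖φ (x j)‖)) ∧
    ∀ α : K, α ≠ 0 → Wandering (chebyshevMap K d) (chebyshevPoint α) →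
      HasLargeHeight c d (chebyshevMap K d) (chebyshevPoint α) (∃ φ : K →+* ℂ, ‖φ α‖ ≠ 1) := by
  obtain ⟨A, hA, hmain⟩ := Pool.Agent.Run7.h22.number_cc
  refine ⟨1 / A, by positivity, ?_⟩
  intro d hd K _ _ _
  have hN0 : (0:ℝ) < finrank ℚ K := by exact_mod_cast (finrank_pos : 0 < finrank ℚ K)
  have hlog2 : (0:ℝ) < Real.log 2 := Real.log_pos (by norm_num)
  have hkk : (Pool.Agent.Run7.h22.ccSet K).ncard = k K := rfl
  -- the numerical part
  have num : ∀ α : K, (finrank ℚ K : ℝ) ≤ A * ((Pool.Agent.Run7.h22.ccSet K).ncard *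
        Real.exp (9 * Real.sqrt (Real.log (2 * (Pool.Agent.Run7.h22.ccSet K).ncard)))) *
          logHeight₁ α → bound K (1 / A) ≤ logHeight₁ α / finrank ℚ K := by
    intro α h
    rw [hkk] at h
    have hH0 : 0 ≤ logHeight₁ α := zero_le_logHeight₁ α
    unfold bound
    rcases Nat.eq_zero_or_pos (k K) with hk | hk
    · rw [hk]
      simp only [Nat.cast_zero, div_zero, zero_mul]
      positivity
    have hk0 : (0:ℝ) < k K := by exact_mod_cast hk
    set s := Real.sqrt (Real.log (2 * k K)) with hs
    have h6 : Real.exp (9 * s) * Real.exp (-9 * s) = 1 := by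
      rw [← Real.exp_add]
      simp
    rw [le_div_iff₀ hN0]
    calc 1 / A / (k K) * Real.exp (-9 * s) * finrank ℚ K
        ≤ 1 / A / (k K) * Real.exp (-9 * s) * (A * ((k K) * Real.exp (9 * s)) * logHeight₁ α) := by
          gcongr
      _ = logHeight₁ α * (Real.exp (9 * s) * Real.exp (-9 * s)) := by field_simp
      _ = logHeight₁ α := by rw [h6, mul_one]
  have key : ∀ (α : K) (n m : ℕ), 1 ≤ m → α ≠ 0 → (∀ n : ℕ, 0 < n → α ^ n ≠ 1) →
      finrank ℚ (IntermediateField.adjoin ℚ {α}) ≤ m * n →
      min (Real.log 2 / n) (bound K (1 / A)) ≤ m * logHeight₁ α / finrank ℚ K ∧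
      ((∃ φ : K →+* ℂ, ‖φ α‖ ≠ 1) → bound K (1 / A) ≤ m * logHeight₁ α / finrank ℚ K) := by
    intro α n m hm h0 hroot hn
    have hm1 : (1:ℝ) ≤ m := by exact_mod_cast hm
    have hH0 : 0 ≤ logHeight₁ α := zero_le_logHeight₁ α
    have hn1 : 0 < n := by
      rcases Nat.eq_zero_or_pos n with h | h
      · rw [h, mul_zero] at hn
        have := (finrank_pos : 0 < finrank ℚ (IntermediateField.adjoin ℚ {α}))
        omega
      · exact h
    have hn0 : (0:ℝ) < n := by exact_mod_cast hn1
    have hle : logHeight₁ α / finrank ℚ K ≤ m * logHeight₁ α / finrank ℚ K := by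
      gcongr
      nlinarith
    obtain ⟨h1, h2⟩ := hmain K α h0 hroot
    refine ⟨?_, fun h => (num α (h2 h)).trans hle⟩
    rcases h1 with h | h
    · refine (min_le_left _ _).trans ?_
      rw [div_le_div_iff₀ hn0 hN0]
      have h1 : (finrank ℚ (IntermediateField.adjoin ℚ {α}) : ℝ) ≤ m * n := by exact_mod_cast hn
      calc Real.log 2 * finrank ℚ K = finrank ℚ K * Real.log 2 := mul_comm _ _
        _ ≤ finrank ℚ (IntermediateField.adjoin ℚ {α}) * logHeight₁ α := h
        _ ≤ (m * n) * logHeight₁ α := mul_le_mul_of_nonneg_right h1 hH0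
        _ = m * logHeight₁ α * n := by ring
    · exact (min_le_right _ _).trans ((num α h).trans hle)
  constructor
  · -- power maps
    intro N x hx hw
    have hit : ∀ n : ℕ, (powerMap K N d)^[n] x = x ^ (d ^ n) := by
      intro n
      induction n with
      | zero => simp
      | succ n ih =>
        rw [Function.iterate_succ_apply', ih]
        funext i
        show (x i ^ (d ^ n)) ^ d = x i ^ (d ^ (n + 1))
        rw [← pow_mul, pow_succ]
    have hw' : ¬ ∃ m n : ℕ, m ≠ n ∧ ∃ c : K, c ≠ 0 ∧ x ^ (d ^ n) = c • x ^ (d ^ m) := by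
      rintro ⟨m, n, hmn, c, hc, h⟩
      exact hw ⟨m, n, hmn, c, hc, by rw [hit, hit, h]⟩
    have hdeg : ∀ i j, finrank ℚ (IntermediateField.adjoin ℚ {x i / x j}) ≤ 1 * degree x := by
      intro i j
      rw [one_mul]
      apply IntermediateField.finrank_le_of_le_right
      rw [IntermediateField.adjoin_simple_le_iff]
      exact IntermediateField.subset_adjoin _ _ ⟨i, j, rfl⟩
    have hrat : ∀ i j, 1 * logHeight₁ (x i / x j) / (finrank ℚ K : ℝ) ≤
        logHeight x / finrank ℚ K := by
      intro i j
      rw [one_mul]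
      have := Pool.Agent.Run7.h22.ratio_le x i j
      gcongr
    refine ⟨logHeight x / finrank ℚ K, ?_, ?_, ?_⟩
    · unfold IsCanonicalHeight
      simp_rw [hit]
      exact Pool.Agent.Run7.h22.tendsto_pow_height hd x
    · obtain ⟨i, j, hi, hj, hroot⟩ := Pool.Agent.Run7.h22.exists_ratio hd hx hw'
      have h2 := (key (x i / x j) (degree x) 1 le_rfl (div_ne_zero hi hj) hroot (hdeg i j)).1
      rw [Nat.cast_one] at h2
      exact h2.trans (hrat i j)
    · rintro ⟨φ, i, j, hi, hj, hne⟩
      have hn1 : ‖φ (x i / x j)‖ ≠ 1 := by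
        rw [map_div₀, norm_div]
        intro h
        apply hne
        have h0 : ‖φ (x j)‖ ≠ 0 := norm_ne_zero_iff.mpr ((map_ne_zero φ).mpr hj)
        rwa [div_eq_one_iff_eq h0] at h
      have hroot : ∀ n : ℕ, 0 < n → (x i / x j) ^ n ≠ 1 := by
        intro n hn h
        apply hn1
        have h1 : ‖φ (x i / x j)‖ ^ n = 1 := by rw [← norm_pow, ← map_pow, h, map_one, norm_one]
        exact (pow_eq_one_iff_of_nonneg (norm_nonneg _) hn.ne').mp h1
      have h2 := (key (x i / x j) (degree x) 1 le_rfl (div_ne_zero hi hj) hroot (hdeg i j)).2 ⟨φ, hn1⟩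
      rw [Nat.cast_one] at h2
      exact h2.trans (hrat i j)
  · -- Chebyshev maps
    intro α h0 hw
    unfold chebyshevPoint at hw ⊢
    have hit : ∀ n : ℕ, (chebyshevMap K d)^[n] ![α + α⁻¹, 1] =
        ![α ^ (d ^ n) + (α⁻¹) ^ (d ^ n), 1] := by
      intro n
      induction n with
      | zero => simp
      | succ n ih =>
        rw [Function.iterate_succ_apply', ih]
        have h1 : (Chebyshev.C K d).eval (α ^ (d ^ n) + (α⁻¹) ^ (d ^ n)) =
            (α ^ (d ^ n)) ^ d + ((α⁻¹) ^ (d ^ n)) ^ d := by
          rw [← dickson_one_one_eq_chebyshev_C]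
          apply dickson_one_one_eval_add_inv
          rw [← mul_pow, mul_inv_cancel₀ h0, one_pow]
        unfold chebyshevMap
        rw [Matrix.cons_val_zero, h1, ← pow_mul, ← pow_mul, pow_succ]
    have hroot : ∀ n : ℕ, 0 < n → α ^ n ≠ 1 := by
      intro M hM hM1
      obtain ⟨m, n, hmn, h⟩ := Pool.Agent.Run7.h22.exists_pow_modEq M hM d
      refine hw ⟨m, n, hmn, 1, one_ne_zero, ?_⟩
      rw [one_smul, hit, hit, ← Pool.Agent.Run7.h22.pow_eq_of_modEq hM1 h,
        ← Pool.Agent.Run7.h22.pow_eq_of_modEq (y := α⁻¹) (by rw [inv_pow, hM1, inv_one]) h]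
    set x := α + α⁻¹ with hx
    have hx1 : (![x, 1] : Fin (1 + 1) → K) 0 / (![x, 1] : Fin (1 + 1) → K) 1 = x := by simp
    have h1 : finrank ℚ (IntermediateField.adjoin ℚ {α}) ≤ 2 * degree ![x, 1] := by
      have h2 := Pool.Agent.Run7.h22.deg_two_mul (F := ℚ) h0 hx
      have h3 : finrank ℚ (IntermediateField.adjoin ℚ {α}) = (minpoly ℚ α).natDegree :=
        IntermediateField.adjoin.finrank (IsIntegral.of_finite ℚ α)
      have h4 : finrank ℚ (IntermediateField.adjoin ℚ {x}) = (minpoly ℚ x).natDegree :=
        IntermediateField.adjoin.finrank (IsIntegral.of_finite ℚ x)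
      rw [h3]
      refine h2.trans ?_
      rw [← h4]
      apply Nat.mul_le_mul_left
      apply IntermediateField.finrank_le_of_le_right
      rw [IntermediateField.adjoin_simple_le_iff]
      exact IntermediateField.subset_adjoin _ _ ⟨0, 1, hx1.symm⟩
    have h2 := key α (degree ![x, 1]) 2 (by norm_num) h0 hroot h1
    refine ⟨2 * logHeight₁ α / finrank ℚ K, ?_, ?_, ?_⟩
    · unfold IsCanonicalHeight
      have h1 : ∀ n : ℕ, logHeight ((chebyshevMap K d)^[n] ![x, 1]) =
          logHeight₁ (α ^ (d ^ n) + (α⁻¹) ^ (d ^ n)) := by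
        intro n
        rw [hit, logHeight₁_eq_logHeight]
      simp_rw [h1]
      exact Pool.Agent.Run7.h22.tendsto_cheb_height hd h0
    · exact_mod_cast h2.1
    · intro h
      exact_mod_cast h2.2 h

end Pool.Agent.Results.MP_2194ec_nt.FewComplexConjugations
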