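import Mathlib
import Pool.Agent.Run7.h22.Rel9

/-!
# The dynamical Lehmer conjecture for power maps and Chebyshev maps at points with few Frobenius
automorphisms

Let `K` be a Galois extension of `ℚ` of finite degree and `p` a prime number that is unramified in `K`,
and let `a ≥ 1`. Let `E` be any subfield of `K` that is normal over `ℚ` and let `k` be the number of the
automorphisms of `E` that are `a`-th powers of Frobenius automorphisms above `p`. Let `P` be a point over
`K` whose coordinates have degree at most `D` over the field generated by `E` and the roots of unity of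
`K` of order prime to `p`. If `P` is a wandering point of the projective space for a power map or
`P = (x : 1)` is a wandering point of the projective line for a Chebyshev map, `x = α + 1 / α` with
`α` in `K`, then

  `ĥ(P) ≥ min (log 2 / [ℚ(P) : ℚ], (c / (p ^ (a + 2) D ^ 3 k)) exp (-25 √(log (2 k) log (2 D))))`

with an absolute constant `c > 0`. So the inequality of the dynamical Lehmer conjecture holds with a
power of the degree to spare for all points for which some field `E` satisfies
`k ≤ [ℚ(P) : ℚ] ^ (1 - ε)` with `D` and `p ^ a` bounded. For the Chebyshev maps one can take for `E` the Galois closure of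
`ℚ(x)`, which is much smaller than that of `ℚ(α)` in general, and `D = 1`.

Method. Let `B_1, …, B_r` be multiplicatively independent conjugates of a unit `α`. The number of the
joint images `(σ B_1, …, σ B_r)` under the Frobenius automorphisms `σ` of `K` is at most `k D ^ r`. So
there is a `σ` such that `B_j ^ q ≡ σ B_j`, `q = p ^ a`, for all `j`, modulo primes that contain a
proportion `1 / (k D ^ r)` of the norm of `p`. The operator `q - σ` is injective on the lattice of the
conjugates; so the many products `∏ (B_j ^ q / σ B_j) ^ (a_j)` of small height are different, and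
congruent to one modulo these primes. This contradicts an energy inequality if the height is too
small. If there are no `r` independent conjugates then a power of `α` with exponent at most `p D` lies
in a normal extension of `ℚ` of degree at most `D ^ (r - 1)` over the field generated by `E` and roots
of unity, which has at most `k D ^ (r - 1)` Frobenius automorphisms, and the theorem for `D = 1` applies
(it uses the elements of minimal height in a group of units and Dobrowolski's theorem).
-/

set_option autoImplicit false

open Polynomial NumberField Module Filter Topology Height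

namespace Pool.Agent.Results.MP_2194ec_nt.FewFrobeniusChebyshev

/-- the number `min (log 2 / n, c / (p ^ (a + 2) D ^ 3 k) exp (-25 √(log (2 k) log (2 D))))` -/
noncomputable def bound (c : ℝ) (n p a D k : ℕ) : ℝ :=
  min (Real.log 2 / n) (c / ((p : ℝ) ^ (a + 2) * (D : ℝ) ^ 3 * k) *
    Real.exp (-25 * Real.sqrt (Real.log (2 * k) * Real.log (2 * D))))

section

variable {K : Type} [Field K] [NumberField K]

variable (K) in
/-- the number `p` is not contained in the square of a prime ideal of the number field `K`; for
a prime number `p` this means that `p` is unramified in `K` -/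
def Unramified (p : ℕ) : Prop :=
  ∀ 𝔓 : Ideal (𝓞 K), 𝔓.IsPrime → (p : 𝓞 K) ∈ 𝔓 → (p : 𝓞 K) ∉ 𝔓 ^ 2

/-- the subfield `E` is normal over `ℚ` -/
def IsNormal (E : IntermediateField ℚ K) : Prop := Normal ℚ E

/-- the automorphisms of a subfield `E` which are congruent to the map `x ↦ x ^ (p ^ a)` modulo some
prime ideal of `E` above `p`; if `p` is unramified they are the `a`-th powers of the Frobenius
automorphisms above `p` -/
def frobenii (E : IntermediateField ℚ K) (p a : ℕ) : Set (E ≃ₐ[ℚ] E) :=
  {σ | ∃ 𝔓 : Ideal (𝓞 E), 𝔓.IsPrime ∧ (p : 𝓞 E) ∈ 𝔓 ∧ ∀ x : 𝓞 E, σ • x - x ^ (p ^ a) ∈ 𝔓}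

/-- the number of these automorphisms -/
noncomputable def k (E : IntermediateField ℚ K) (p a : ℕ) : ℕ := (frobenii E p a).ncard

/-- the field generated by `E` and the `p`-th powers of the roots of unity of `K` (if `p` is
unramified, these are the roots of unity of order prime to `p`, except for signs) -/
def withRoots (E : IntermediateField ℚ K) (p : ℕ) : IntermediateField ℚ K :=
  E ⊔ IntermediateField.adjoin ℚ {x | ∃ ζ : K, (∃ m : ℕ, 0 < m ∧ ζ ^ m = 1) ∧ x = ζ ^ p}

/-- the ratios of the coordinates of the point with coordinate vector `x` have degree at most `D` over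
`withRoots E p` -/
def DegreeLE {N : ℕ} (x : Fin (N + 1) → K) (E : IntermediateField ℚ K) (p D : ℕ) : Prop :=
  ∀ i j, (minpoly (withRoots E p) (x i / x j)).natDegree ≤ D

/-- the degree of the field `ℚ(P)` generated by the ratios of the coordinates of the point `P` with
coordinate vector `x` -/
noncomputable def degree {N : ℕ} (x : Fin (N + 1) → K) : ℕ :=
  finrank ℚ (IntermediateField.adjoin ℚ {y | ∃ i j, y = x i / x j})

/-- for a map `g` on coordinate vectors: the iterates of the point with coordinate vector `x` are
pairwise distinct points of the projective space -/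
def Wandering {N : ℕ} (g : (Fin (N + 1) → K) → (Fin (N + 1) → K)) (x : Fin (N + 1) → K) : Prop :=
  ¬ ∃ m n : ℕ, m ≠ n ∧ ∃ c : K, c ≠ 0 ∧ g^[n] x = c • g^[m] x

/-- `h` is the canonical height of the point with coordinate vector `x`: the limit of
`h(g^n(x)) / d ^ n`, where `h` is the absolute logarithmic Weil height, that is
Mathlib's (relative) `Height.logHeight` divided by `[K : ℚ]` -/
def IsCanonicalHeight {N : ℕ} (g : (Fin (N + 1) → K) → (Fin (N + 1) → K)) (d : ℕ)
    (x : Fin (N + 1) → K) (h : ℝ) : Prop :=
  Tendsto (fun n : ℕ => logHeight (g^[n] x) / ((finrank ℚ K : ℝ) * (d : ℝ) ^ n)) atTop (𝓝 h)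

variable (K) in
/-- the power map `(x_0 : … : x_N) ↦ (x_0 ^ d : … : x_N ^ d)` on coordinate vectors -/
def powerMap (N d : ℕ) (x : Fin (N + 1) → K) : Fin (N + 1) → K := fun i => x i ^ d

variable (K) in
/-- the Chebyshev map `(x : 1) ↦ (C_d(x) : 1)` on coordinate vectors, where `C_d(x)` is the polynomial
with `C_d(t + 1 / t) = t ^ d + 1 / t ^ d` -/
noncomputable def chebyshevMap (d : ℕ) (x : Fin (1 + 1) → K) : Fin (1 + 1) → K :=
  ![(Chebyshev.C K d).eval (x 0), 1]

/-- the coordinate vector of the point `(α + 1 / α : 1)` -/
noncomputable def chebyshevPoint (α : K) : Fin (1 + 1) → K := ![α + α⁻¹, 1]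

/-- The point with coordinate vector `x` has a canonical height for the map `g` of degree `d`, and for
all normal subfields `E` and all `D` such that the ratios of the coordinates have degree at most `D`
over `withRoots E p` this height is at least
`min (log 2 / n, c / (p ^ (a + 2) D ^ 3 k) exp (-25 √(log (2 k) log (2 D))))` with `n = degree x` and
`k = k E p a`. -/
def HasLargeHeight (c : ℝ) (p a d : ℕ) {N : ℕ} (g : (Fin (N + 1) → K) → (Fin (N + 1) → K))
    (x : Fin (N + 1) → K) : Prop :=
  ∃ h : ℝ, IsCanonicalHeight g d x h ∧ ∀ E : IntermediateField ℚ K, IsNormal E →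
    ∀ D : ℕ, DegreeLE x E p D → bound c (degree x) p a D (k E p a) ≤ h

end

/-- **The dynamical Lehmer conjecture for power maps and Chebyshev maps at points with few Frobenius
automorphisms.** There is an absolute constant `c > 0` such that for every prime number `p`, all
`a ≥ 1` and `d ≥ 2` and every Galois number field `K` in which `p` is unramified:
* every point of a projective space over `K` which is wandering for the power map of degree `d` has
  a large canonical height in the sense of `HasLargeHeight c p a d`;
* for every nonzero `α` in `K` the point `(α + 1 / α : 1)`, if it is wandering for the Chebyshev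
  map of degree `d`, has a large canonical height in the same sense. -/
theorem result : ∃ c : ℝ, 0 < c ∧ ∀ p a d : ℕ, p.Prime → 1 ≤ a → 2 ≤ d →
    ∀ (K : Type) [Field K] [NumberField K] [IsGalois ℚ K], Unramified K p →
    (∀ (N : ℕ) (x : Fin (N + 1) → K), x ≠ 0 → Wandering (powerMap K N d) x →
      HasLargeHeight c p a d (powerMap K N d) x) ∧
    ∀ α : K, α ≠ 0 → Wandering (chebyshevMap K d) (chebyshevPoint α) →
      HasLargeHeight c p a d (chebyshevMap K d) (chebyshevPoint α) := by
  obtain ⟨A, hA, hmain⟩ := Pool.Agent.Run7.h22.number_rel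
  refine ⟨1 / (8 * A), by positivity, ?_⟩
  intro p a d hp ha hd K _ _ _ hunr
  have hp0 : (0:ℝ) < p := by exact_mod_cast hp.pos
  have hN0 : (0:ℝ) < finrank ℚ K := by exact_mod_cast (finrank_pos : 0 < finrank ℚ K)
  have hlog2 : (0:ℝ) < Real.log 2 := Real.log_pos (by norm_num)
  -- the numerical part: `m` is `1` or `2`, the degree of the map to the projective line
  have key : ∀ (α : K) (n m : ℕ), (m = 1 ∨ m = 2) → α ≠ 0 → (∀ n : ℕ, 0 < n → α ^ n ≠ 1) →
      finrank ℚ (IntermediateField.adjoin ℚ {α}) ≤ m * n →
      ∀ E : IntermediateField ℚ K, Normal ℚ E → ∀ D : ℕ,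
      (minpoly (withRoots E p) α).natDegree ≤ m * D →
      bound (1 / (8 * A)) n p a D (k E p a) ≤ m * logHeight₁ α / finrank ℚ K := by
    intro α n m hm h0 hroot hn E hE D hD
    have hm1 : (1:ℝ) ≤ m := by rcases hm with h | h <;> rw [h] <;> norm_num
    have hm2 : (m:ℝ) ≤ 2 := by rcases hm with h | h <;> rw [h] <;> norm_num
    have hH0 : 0 ≤ logHeight₁ α := zero_le_logHeight₁ α
    have hn1 : 0 < n := by
      rcases Nat.eq_zero_or_pos n with h | h
      · rw [h, mul_zero] at hn
        have := (finrank_pos : 0 < finrank ℚ (IntermediateField.adjoin ℚ {α}))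
        omega
      · exact h
    have hn0 : (0:ℝ) < n := by exact_mod_cast hn1
    unfold bound
    rcases hmain p a hp ha K hunr α h0 hroot E (m * D) hD with h | h
    · refine (min_le_left _ _).trans ?_
      rw [div_le_div_iff₀ hn0 hN0]
      have h1 : (finrank ℚ (IntermediateField.adjoin ℚ {α}) : ℝ) ≤ m * n := by exact_mod_cast hn
      calc Real.log 2 * finrank ℚ K = finrank ℚ K * Real.log 2 := mul_comm _ _
        _ ≤ finrank ℚ (IntermediateField.adjoin ℚ {α}) * logHeight₁ α := h
        _ ≤ (m * n) * logHeight₁ α := mul_le_mul_of_nonneg_right h1 hH0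
        _ = m * logHeight₁ α * n := by ring
    · refine (min_le_right _ _).trans ?_
      have hkk : (Pool.Agent.Run7.h22.frobSet E p (p ^ a)).ncard = k E p a := rfl
      rw [hkk] at h
      rcases Nat.eq_zero_or_pos (k E p a) with hk | hk
      · rw [hk]
        simp only [Nat.cast_zero, mul_zero, div_zero, zero_mul]
        positivity
      rcases Nat.eq_zero_or_pos D with hD0 | hD0
      · rw [hD0]
        simp only [Nat.cast_zero, mul_zero, ne_eq, OfNat.ofNat_ne_zero, not_false_eq_true, zero_pow,
          zero_mul, div_zero]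
        positivity
      set κ := k E p a with hκ
      have hk0 : (0:ℝ) < κ := by exact_mod_cast hk
      have hk1 : (1:ℝ) ≤ κ := by exact_mod_cast hk
      have hD1 : (1:ℝ) ≤ D := by exact_mod_cast hD0
      set s := Real.sqrt (Real.log (2 * κ) * Real.log (2 * D)) with hs
      have hlogk : 0 ≤ Real.log (2 * κ) := Real.log_nonneg (by linarith)
      have hlogD : 0 ≤ Real.log (2 * D) := Real.log_nonneg (by linarith)
      have hlog2D : Real.log 2 ≤ Real.log (2 * D) := Real.log_le_log (by norm_num) (by linarith)
      -- the exponent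
      have hcast : ((m * D : ℕ) : ℝ) = m * D := by push_cast; ring
      have hlogm : Real.log (2 * ((m * D : ℕ) : ℝ)) ≤ 2 * Real.log (2 * D) := by
        rw [hcast]
        have h1 : (2 * ((m:ℝ) * D)) ≤ (2 * D) ^ 2 := by nlinarith
        have h2 := Real.log_le_log (by positivity) h1
        rwa [Real.log_pow, Nat.cast_ofNat] at h2
      have hsq : 17 * Real.sqrt (Real.log (2 * κ) * Real.log (2 * ((m * D : ℕ) : ℝ))) ≤ 25 * s := by
        have h1 : Real.sqrt (Real.log (2 * κ) * Real.log (2 * ((m * D : ℕ) : ℝ))) ≤
            Real.sqrt (1.45 ^ 2 * (Real.log (2 * κ) * Real.log (2 * D))) := by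
          apply Real.sqrt_le_sqrt
          nlinarith [mul_le_mul_of_nonneg_left hlogm hlogk, mul_nonneg hlogk hlogD]
        rw [Real.sqrt_mul (by norm_num : (0:ℝ) ≤ 1.45 ^ 2) (Real.log (2 * κ) * Real.log (2 * D)),
          Real.sqrt_sq (by norm_num)] at h1
        have h2 : 0 ≤ s := Real.sqrt_nonneg _
        rw [← hs] at h1
        linarith
      have hexp : Real.exp (17 * Real.sqrt (Real.log (2 * κ) * Real.log (2 * ((m * D : ℕ) : ℝ)))) ≤
          Real.exp (25 * s) := Real.exp_le_exp.mpr hsq
      have hcube : (((m * D : ℕ) : ℝ)) ^ 3 ≤ 8 * m * (D : ℝ) ^ 3 := by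
        rw [hcast, mul_pow]
        have h1 : (m:ℝ) ^ 3 ≤ 8 * m := by rcases hm with h | h <;> rw [h] <;> norm_num
        exact mul_le_mul_of_nonneg_right h1 (by positivity)
      have h5 : (finrank ℚ K : ℝ) ≤ A * (p : ℝ) ^ (a + 2) * ((8 * m * (D : ℝ) ^ 3) * κ *
          Real.exp (25 * s)) * logHeight₁ α := by
        refine h.trans ?_
        gcongr
      have h6 : Real.exp (25 * s) * Real.exp (-25 * s) = 1 := by
        rw [← Real.exp_add]
        simp
      rw [le_div_iff₀ hN0]
      calc 1 / (8 * A) / ((p : ℝ) ^ (a + 2) * (D : ℝ) ^ 3 * κ) * Real.exp (-25 * s) * finrank ℚ K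
          ≤ 1 / (8 * A) / ((p : ℝ) ^ (a + 2) * (D : ℝ) ^ 3 * κ) * Real.exp (-25 * s) *
            (A * (p : ℝ) ^ (a + 2) * ((8 * m * (D : ℝ) ^ 3) * κ *
              Real.exp (25 * s)) * logHeight₁ α) := by gcongr
        _ = m * logHeight₁ α * (Real.exp (25 * s) * Real.exp (-25 * s)) := by
            field_simp
        _ = m * logHeight₁ α := by rw [h6, mul_one]
  constructor
  · -- power maps
    intro N x hx hw
    have hit : ∀ n : ℕ, (powerMap K N d)^[n] x = x ^ (d ^ n) := by
      intro n
      induction n with
      | zero => simp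
      | succ n ih =>
        rw [Function.iterate_succ_apply', ih]
        funext i
        show (x i ^ (d ^ n)) ^ d = x i ^ (d ^ (n + 1))
        rw [← pow_mul, pow_succ]
    have hw' : ¬ ∃ m n : ℕ, m ≠ n ∧ ∃ c : K, c ≠ 0 ∧ x ^ (d ^ n) = c • x ^ (d ^ m) := by
      rintro ⟨m, n, hmn, c, hc, h⟩
      exact hw ⟨m, n, hmn, c, hc, by rw [hit, hit, h]⟩
    obtain ⟨i, j, hi, hj, hroot⟩ := Pool.Agent.Run7.h22.exists_ratio hd hx hw'
    refine ⟨logHeight x / finrank ℚ K, ?_, ?_⟩
    · unfold IsCanonicalHeight
      simp_rw [hit]
      exact Pool.Agent.Run7.h22.tendsto_pow_height hd x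
    · intro E hE D hD
      have h1 : finrank ℚ (IntermediateField.adjoin ℚ {x i / x j}) ≤ 1 * degree x := by
        rw [one_mul]
        apply IntermediateField.finrank_le_of_le_right
        rw [IntermediateField.adjoin_simple_le_iff]
        exact IntermediateField.subset_adjoin _ _ ⟨i, j, rfl⟩
      have h2 := key (x i / x j) (degree x) 1 (Or.inl rfl) (div_ne_zero hi hj) hroot h1 E hE D
        (by rw [one_mul]; exact hD i j)
      rw [Nat.cast_one, one_mul] at h2
      exact h2.trans (by
        have := Pool.Agent.Run7.h22.ratio_le x i j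
        gcongr)
  · -- Chebyshev maps
    intro α h0 hw
    unfold chebyshevPoint at hw ⊢
    have hit : ∀ n : ℕ, (chebyshevMap K d)^[n] ![α + α⁻¹, 1] =
        ![α ^ (d ^ n) + (α⁻¹) ^ (d ^ n), 1] := by
      intro n
      induction n with
      | zero => simp
      | succ n ih =>
        rw [Function.iterate_succ_apply', ih]
        have h1 : (Chebyshev.C K d).eval (α ^ (d ^ n) + (α⁻¹) ^ (d ^ n)) =
            (α ^ (d ^ n)) ^ d + ((α⁻¹) ^ (d ^ n)) ^ d := by
          rw [← dickson_one_one_eq_chebyshev_C]
          apply dickson_one_one_eval_add_inv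
          rw [← mul_pow, mul_inv_cancel₀ h0, one_pow]
        unfold chebyshevMap
        rw [Matrix.cons_val_zero, h1, ← pow_mul, ← pow_mul, pow_succ]
    have hroot : ∀ n : ℕ, 0 < n → α ^ n ≠ 1 := by
      intro M hM hM1
      obtain ⟨m, n, hmn, h⟩ := Pool.Agent.Run7.h22.exists_pow_modEq M hM d
      refine hw ⟨m, n, hmn, 1, one_ne_zero, ?_⟩
      rw [one_smul, hit, hit, ← Pool.Agent.Run7.h22.pow_eq_of_modEq hM1 h,
        ← Pool.Agent.Run7.h22.pow_eq_of_modEq (y := α⁻¹) (by rw [inv_pow, hM1, inv_one]) h]
    refine ⟨2 * logHeight₁ α / finrank ℚ K, ?_, ?_⟩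
    · unfold IsCanonicalHeight
      have h1 : ∀ n : ℕ, logHeight ((chebyshevMap K d)^[n] ![α + α⁻¹, 1]) =
          logHeight₁ (α ^ (d ^ n) + (α⁻¹) ^ (d ^ n)) := by
        intro n
        rw [hit, logHeight₁_eq_logHeight]
      simp_rw [h1]
      exact Pool.Agent.Run7.h22.tendsto_cheb_height hd h0
    · intro E hE D hD
      set x := α + α⁻¹ with hx
      have hx1 : (![x, 1] : Fin (1 + 1) → K) 0 / (![x, 1] : Fin (1 + 1) → K) 1 = x := by simp
      have h1 : finrank ℚ (IntermediateField.adjoin ℚ {α}) ≤ 2 * degree ![x, 1] := by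
        have h2 := Pool.Agent.Run7.h22.deg_two_mul (F := ℚ) h0 hx
        have h3 : finrank ℚ (IntermediateField.adjoin ℚ {α}) = (minpoly ℚ α).natDegree :=
          IntermediateField.adjoin.finrank (IsIntegral.of_finite ℚ α)
        have h4 : finrank ℚ (IntermediateField.adjoin ℚ {x}) = (minpoly ℚ x).natDegree :=
          IntermediateField.adjoin.finrank (IsIntegral.of_finite ℚ x)
        rw [h3]
        refine h2.trans ?_
        rw [← h4]
        apply Nat.mul_le_mul_left
        apply IntermediateField.finrank_le_of_le_right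
        rw [IntermediateField.adjoin_simple_le_iff]
        exact IntermediateField.subset_adjoin _ _ ⟨0, 1, hx1.symm⟩
      have h5 : (minpoly (withRoots E p) α).natDegree ≤ 2 * D := by
        have h6 := Pool.Agent.Run7.h22.deg_two_mul (F := withRoots E p) h0 hx
        have h7 := hD 0 1
        rw [hx1] at h7
        omega
      have h2 := key α (degree ![x, 1]) 2 (Or.inr rfl) h0 hroot h1 E hE D h5
      exact_mod_cast h2

end Pool.Agent.Results.MP_2194ec_nt.FewFrobeniusChebyshev
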